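import Pool.Agent.helper20.SOL.Spec

/-!
# Row DL1 of project sol (MP_cad530_co): odd additive functions on the orbit `TD n (2r) 2` are
linear.
-/

set_option autoImplicit false

namespace Pool.Agent.SOL

open Pool.Agent.helper54.SOG Finset

open scoped BigOperators

theorem DL1_sg (z : ℤ) : sg z * |z| = z := by
  unfold sg
  split_ifs with h
  · rw [abs_of_neg h]; ring
  · rw [abs_of_nonneg (not_lt.1 h)]; ring

theorem DL1_abs_sg (z w : ℤ) : |sg z * w| = |w| := by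
  unfold sg
  split_ifs <;> simp

theorem DL1_pos {n : ℕ} {x : Vec n} {i : Fin n} {a : ℤ} (h : |x i| = a) : 1 ≤ cnt x a := by
  unfold cnt
  exact Finset.card_pos.2 ⟨i, Finset.mem_filter.2 ⟨Finset.mem_univ _, h⟩⟩

theorem DL1_ex {n : ℕ} {x : Vec n} {a : ℤ} (h : 1 ≤ cnt x a) : ∃ c, |x c| = a := by
  unfold cnt at h
  obtain ⟨c, hc⟩ := Finset.card_pos.1 h
  exact ⟨c, (Finset.mem_filter.1 hc).2⟩

theorem DL1_P3 (hCNT : CNT_stmt) (hPAT : PAT_stmt) {n r : ℕ} (hn : 4 * r + 2 ≤ n) (hn4 : 4 ≤ n)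
    {x : Vec n} (hx : x ∈ TD n (2 * r) 2) (i a b : Fin n) (vi va vb : ℤ) (hia : i ≠ a)
    (hib : i ≠ b) (hab : a ≠ b)
    (hfit : ∀ p q : ℤ, (if |x i| = p ∧ vi = q then 1 else 0) + (if |x a| = p ∧ va = q then 1 else 0)
      + (if |x b| = p ∧ vb = q then 1 else 0) ≤ pat r r 0 1 1 0 0 r 1 (n - 3 * r - 3) p q) :
    ∃ y ∈ TD n (2 * r) 2, x - y ∈ TD n (2 * r) 2 ∧
      y i = sg (x i) * vi ∧ y a = sg (x a) * va ∧ y b = sg (x b) * vb := by
  have h0 := hCNT.1 n x hx.1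
  have h1 := hx.2.1
  have h2 := hx.2.2
  obtain ⟨y, hy1, hy2, hy3⟩ := hPAT.1 n x r r 0 1 1 0 0 r 1 (n - 3 * r - 3) hx.1 (by omega)
    (by omega) (by omega) i a b vi va vb hia hib hab hfit
  have e1 : r + 0 + r = 2 * r := by ring
  rw [e1] at hy1 hy2
  exact ⟨y, hy1, hy2, hy3⟩

theorem DL1_P2 (hCNT : CNT_stmt) (hPAT : PAT_stmt) {n r : ℕ} (hn : 4 * r + 2 ≤ n) (hn4 : 4 ≤ n)
    {x : Vec n} (hx : x ∈ TD n (2 * r) 2) (i a : Fin n) (vi va : ℤ) (hia : i ≠ a)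
    (hfit : ∀ p q : ℤ, (if |x i| = p ∧ vi = q then 1 else 0) + (if |x a| = p ∧ va = q then 1 else 0)
      ≤ pat r r 0 1 1 0 0 r 1 (n - 3 * r - 3) p q) :
    ∃ y ∈ TD n (2 * r) 2, x - y ∈ TD n (2 * r) 2 ∧
      y i = sg (x i) * vi ∧ y a = sg (x a) * va := by
  have h0 := hCNT.1 n x hx.1
  have h1 := hx.2.1
  have h2 := hx.2.2
  obtain ⟨y, hy1, hy2, hy3⟩ := hPAT.2.1 n x r r 0 1 1 0 0 r 1 (n - 3 * r - 3) hx.1 (by omega)
    (by omega) (by omega) i a vi va hia hfit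
  have e1 : r + 0 + r = 2 * r := by ring
  rw [e1] at hy1 hy2
  exact ⟨y, hy1, hy2, hy3⟩

theorem DL1_P1 (hCNT : CNT_stmt) (hPAT : PAT_stmt) {n r : ℕ} (hn : 4 * r + 2 ≤ n) (hr : 1 ≤ r)
    {x : Vec n} (hx : x ∈ TD n (2 * r) 2) (i : Fin n) (vi : ℤ)
    (hfit : ∀ p q : ℤ, (if |x i| = p ∧ vi = q then 1 else 0)
      ≤ pat (r - 1) r 1 1 0 1 0 r 0 (n - 3 * r - 2) p q) :
    ∃ y ∈ TD n (2 * r) 2, x - y ∈ TD n (2 * r) 2 ∧ y i = sg (x i) * vi := by
  have h0 := hCNT.1 n x hx.1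
  have h1 := hx.2.1
  have h2 := hx.2.2
  obtain ⟨y, hy1, hy2, hy3⟩ := hPAT.2.2 n x (r - 1) r 1 1 0 1 0 r 0 (n - 3 * r - 2) hx.1 (by omega)
    (by omega) (by omega) i vi hfit
  have e1 : r - 1 + 1 + r = 2 * r := by omega
  have e2 : r + 0 + r = 2 * r := by ring
  rw [e1] at hy1
  rw [e2] at hy2
  exact ⟨y, hy1, hy2, hy3⟩

theorem DL1_h1 (hCNT : CNT_stmt) (hPAT : PAT_stmt) {n r : ℕ} (hn : 4 * r + 2 ≤ n) (hn4 : 4 ≤ n)
    {x : Vec n} (hx : x ∈ TD n (2 * r) 2) (i j : Fin n) (hij : i ≠ j) (hi : x i ≠ 0)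
    (hj : x j ≠ 0) : ∃ y ∈ TD n (2 * r) 2, x - y ∈ TD n (2 * r) 2 ∧ y i = 0 ∧ (x - y) j = 0 := by
  have hi0 : 0 < |x i| := abs_pos.2 hi
  have hj0 : 0 < |x j| := abs_pos.2 hj
  have hi2 := hx.1 i
  have hj2 := hx.1 j
  have hci : |x i| = 2 → 1 ≤ r := fun h => by
    have h3 := DL1_pos h
    have h4 := hx.2.1
    omega
  have hcj : |x j| = 2 → 1 ≤ r := fun h => by
    have h3 := DL1_pos h
    have h4 := hx.2.1
    omega
  obtain ⟨y, hy1, hy2, hy3, hy4⟩ := DL1_P2 hCNT hPAT hn hn4 hx i j 0 |x j| hij (by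
    intro p q
    unfold pat
    generalize |x i| = A at *
    generalize |x j| = B at *
    have hA : A = 1 ∨ A = 2 := by omega
    have hB : B = 1 ∨ B = 2 := by omega
    rcases hA with rfl | rfl <;> rcases hB with rfl | rfl <;> split_ifs <;> omega)
  refine ⟨y, hy1, hy2, by rw [hy3, mul_zero], ?_⟩
  rw [Pi.sub_apply, hy4, DL1_sg, sub_self]

/-- the function `v` of the criterion -/
def DL1_v (r : ℕ) (z : ℤ) : ℤ := if z = 2 then 1 else if r = 0 then 1 else 2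

theorem DL1_h2 (hCNT : CNT_stmt) (hPAT : PAT_stmt) {n r : ℕ} (hn : 4 * r + 2 ≤ n) (hn4 : 4 ≤ n)
    {x : Vec n} (hx : x ∈ TD n (2 * r) 2) (i a b : Fin n) (hi : x i ≠ 0) (ha : a ≠ i)
    (hb : b ≠ i) (hva : |x a| = DL1_v r |x i|) (hvb : |x b| ≠ DL1_v r |x i|) :
    ∃ y ∈ TD n (2 * r) 2, x - y ∈ TD n (2 * r) 2 ∧ (x - y) i = 0 ∧ |y a| = |y b| := by
  have hab : a ≠ b := by
    rintro rfl
    exact hvb hva
  have hi0 : 0 < |x i| := abs_pos.2 hi
  have hi2 := hx.1 i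
  have hb2 := hx.1 b
  have hb0 := abs_nonneg (x b)
  have h1 := hx.2.1
  have hr2 : ∀ j, |x j| = 2 → 1 ≤ r := fun j h => by
    have h3 := DL1_pos h
    omega
  have hri := hr2 i
  have hrb := hr2 b
  -- the common end
  have key : ∀ w : ℤ, (∀ p q : ℤ, (if |x i| = p ∧ |x i| = q then 1 else 0) +
      (if |x a| = p ∧ w = q then 1 else 0) + (if |x b| = p ∧ w = q then 1 else 0) ≤
      pat r r 0 1 1 0 0 r 1 (n - 3 * r - 3) p q) →
      ∃ y ∈ TD n (2 * r) 2, x - y ∈ TD n (2 * r) 2 ∧ (x - y) i = 0 ∧ |y a| = |y b| := by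
    intro w hw
    obtain ⟨y, hy1, hy2, hy3, hy4, hy5⟩ := DL1_P3 hCNT hPAT hn hn4 hx i a b |x i| w w
      (Ne.symm ha) (Ne.symm hb) hab hw
    refine ⟨y, hy1, hy2, ?_, ?_⟩
    · rw [Pi.sub_apply, hy3, DL1_sg, sub_self]
    · rw [hy4, hy5, DL1_abs_sg, DL1_abs_sg]
  unfold DL1_v at hva hvb
  by_cases hI : |x i| = 2
  · rw [if_pos hI] at hva hvb
    have hr := hri hI
    by_cases hB : |x b| = 2
    · refine key 0 ?_
      intro p q
      rw [hI, hva, hB]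
      unfold pat
      split_ifs <;> omega
    · have hB0 : |x b| = 0 := by omega
      refine key 1 ?_
      intro p q
      rw [hI, hva, hB0]
      unfold pat
      split_ifs <;> omega
  · have hI1 : |x i| = 1 := by omega
    rw [if_neg hI] at hva hvb
    by_cases hr : r = 0
    · rw [if_pos hr] at hva hvb
      have hB0 : |x b| = 0 := by omega
      refine key 0 ?_
      intro p q
      rw [hI1, hva, hB0]
      unfold pat
      split_ifs <;> omega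
    · rw [if_neg hr] at hva hvb
      by_cases hB : |x b| = 0
      · refine key 2 ?_
        intro p q
        rw [hI1, hva, hB]
        unfold pat
        split_ifs <;> omega
      · have hB1 : |x b| = 1 := by omega
        refine key 0 ?_
        intro p q
        rw [hI1, hva, hB1]
        unfold pat
        split_ifs <;> omega

theorem DL1_h2' {n r : ℕ} {x : Vec n} (hx : x ∈ TD n (2 * r) 2) (i a b : Fin n) (hi : x i ≠ 0)
    (hva : |x a| ≠ DL1_v r |x i|) (hvb : |x b| ≠ DL1_v r |x i|) (hab : |x a| ≠ |x b|) :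
    ∃ c, c ≠ i ∧ |x c| = DL1_v r |x i| := by
  have hi0 : 0 < |x i| := abs_pos.2 hi
  have hi2 := hx.1 i
  have ha2 := hx.1 a
  have ha0 := abs_nonneg (x a)
  have hb2 := hx.1 b
  have hb0 := abs_nonneg (x b)
  have h1 := hx.2.1
  have h2 := hx.2.2
  have hr2 : ∀ j, |x j| = 2 → 1 ≤ r := fun j h => by
    have h3 := DL1_pos h
    omega
  have hra := hr2 a
  have hrb := hr2 b
  unfold DL1_v at *
  by_cases hI : |x i| = 2
  · rw [if_pos hI] at hva hvb ⊢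
    obtain ⟨c, hc⟩ := DL1_ex (x := x) (a := 1) (by omega)
    refine ⟨c, ?_, hc⟩
    rintro rfl
    omega
  · have hI1 : |x i| = 1 := by omega
    rw [if_neg hI] at hva hvb ⊢
    by_cases hr : r = 0
    · rw [if_pos hr] at hva hvb ⊢
      exfalso
      omega
    · rw [if_neg hr] at hva hvb ⊢
      obtain ⟨c, hc⟩ := DL1_ex (x := x) (a := 2) (by omega)
      refine ⟨c, ?_, hc⟩
      rintro rfl
      omega

theorem DL1 (hCNT : CNT_stmt) (hPAT : PAT_stmt) (hLX5 : LX5_stmt) : DL1_stmt := by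
  intro n r hn hn4 M _ _ f hf
  refine hLX5 n (2 * r) 2 M f (DL1_v r) hf ?_ ?_ ?_ ?_
  · intro x hx i j hij hi hj
    obtain ⟨y, hy1, hy2, hy3⟩ := DL1_h1 hCNT hPAT hn hn4 hx i j hij hi hj
    exact ⟨y, hy1, hy2, Or.inl hy3⟩
  · intro x hx i a b hi ha hb hva hvb
    exact DL1_h2 hCNT hPAT hn hn4 hx i a b hi ha hb hva hvb
  · intro x hx i a b hi _ _ hva hvb hab
    exact DL1_h2' hx i a b hi hva hvb hab
  · rintro i ⟨x, hx, hxi⟩ _
    have hI : |x i| = 2 := by rw [hxi]; rfl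
    have hr : 1 ≤ r := by
      have h3 := DL1_pos hI
      have h4 := hx.2.1
      omega
    obtain ⟨y, hy1, hy2, hy3⟩ := DL1_P1 hCNT hPAT hn hr hx i 1 (by
      intro p q
      rw [hI]
      unfold pat
      split_ifs <;> omega)
    refine ⟨x, hx, y, hy1, hy2, hxi, ?_⟩
    rw [hy3, hxi]
    rfl

end Pool.Agent.SOL
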